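import Pool.Agent.MP_6f2ed2_nt.H1.Objs
import Pool.Agent.MP_74e98a_nt.H75.TDefs

/-! Objects and statements for the reduction of the cubic moment of Hardy's function to the
damped triple sum. -/

namespace Pool.Agent.MP_74e98a_nt.H93

open Complex MeasureTheory Pool.Agent.MP_6f2ed2_nt.H1 Pool.Agent.MP_74e98a_nt.H75

/-- `(1/2) log (t / 2π)` -/
noncomputable def ell (t : ℝ) : ℝ := Real.log (t / (2 * Real.pi)) / 2

/-- the main part of the phase, its derivative is `ell` -/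
noncomputable def th0 (t : ℝ) : ℝ := t * ell t - t / 2

/-- `n ^ (-1/2 - i t)` -/
noncomputable def dir (n : ℕ) (t : ℝ) : ℂ :=
  ((1 / Real.sqrt n : ℝ) : ℂ) * cexp (-I * (Real.log n : ℂ) * t)

/-- the smoothed Dirichlet polynomial -/
noncomputable def P (φ : ℝ → ℝ) (l : ℝ) (N : ℕ) (t : ℝ) : ℂ :=
  ∑ n ∈ Finset.Icc 1 N, (φ (l - Real.log n) : ℂ) * dir n t

/-- the sharp Dirichlet polynomial -/
noncomputable def S (k : ℕ) (t : ℝ) : ℂ := ∑ n ∈ Finset.Icc 1 k, dir n t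

/-- a majorant of all smoothed polynomials of length `N` -/
noncomputable def Maj (N : ℕ) (t : ℝ) : ℝ :=
  ∑ k ∈ Finset.Icc 1 N, ‖S k t‖ / k + ‖S N t‖

/-- the triangular window -/
noncomputable def tri (w H t : ℝ) : ℝ := max 0 (1 - |t - w| / H)

/-- the length of the polynomials at height `T` -/
noncomputable def NN (T : ℝ) : ℕ := ⌈Real.exp 11 * Real.sqrt T⌉₊

/-- the entire function `u (1 - u) Λ(u)` -/
noncomputable def xi (u : ℂ) : ℂ := u * (1 - u) * completedRiemannZeta₀ u - 1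

/-- points of the line `re z = 3/2` -/
noncomputable def zz (y : ℝ) : ℂ := 3 / 2 + y * I

/-- the normalised ratio of Gamma factors -/
noncomputable def Rat (t : ℝ) (z : ℂ) : ℂ :=
  Gammaℝ (1 / 2 + I * t + z) / Gammaℝ (1 / 2 + I * t) * cexp (-(I * Real.pi * z / 4)) *
    ((1 / 2 + I * t + z) * (1 - (1 / 2 + I * t + z)) / ((1 / 2 + I * t) * (1 - (1 / 2 + I * t))))

theorem continuous_dir (n : ℕ) : Continuous (dir n) := by unfold dir; fun_prop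

theorem continuous_P (φ : ℝ → ℝ) (l : ℝ) (N : ℕ) : Continuous (P φ l N) := by
  unfold P
  exact continuous_finsetSum _ fun n _ => continuous_const.mul (continuous_dir n)

theorem continuous_S (k : ℕ) : Continuous (S k) := by
  unfold S
  exact continuous_finsetSum _ fun n _ => continuous_dir n

theorem continuous_Maj (N : ℕ) : Continuous (Maj N) := by
  unfold Maj
  exact (continuous_finsetSum _ fun k _ => (continuous_S k).norm.div_const _).add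
    (continuous_S N).norm

theorem Maj_nonneg (N : ℕ) (t : ℝ) : 0 ≤ Maj N t := by unfold Maj; positivity

theorem continuous_tri (w H : ℝ) : Continuous (tri w H) := by unfold tri; fun_prop

theorem tri_nonneg (w H t : ℝ) : 0 ≤ tri w H t := le_max_left _ _

theorem tri_le_one (w t : ℝ) {H : ℝ} (hH : 0 ≤ H) : tri w H t ≤ 1 :=
  max_le zero_le_one (sub_le_self _ (by positivity))

theorem norm_dir (n : ℕ) (t : ℝ) : ‖dir n t‖ = 1 / Real.sqrt n := by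
  unfold dir
  rw [norm_mul, norm_real, Real.norm_of_nonneg (by positivity), norm_exp]
  simp [-Complex.natCast_log]

/-- a smooth step together with the Laplace transform of its derivative -/
structure Kern (φ : ℝ → ℝ) (G : ℂ → ℂ) : Prop where
  step : Step φ
  diff : Differentiable ℂ G
  even : ∀ z, G (-z) = G z
  conj : ∀ z, G ((starRingEnd ℂ) z) = (starRingEnd ℂ) (G z)
  zero : G 0 = 1
  bound : ∀ z, ‖G z‖ ≤ Real.exp |z.re|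
  decay : ∀ m : ℕ, ∃ C : ℝ, ∀ y : ℝ, ‖G (zz y)‖ * (1 + |y|) ^ m ≤ C
  inv : ∀ l : ℝ, ∫ y : ℝ, G (zz y) * cexp (zz y * l) / zz y = 2 * Real.pi * φ l

/-- row K -/
def KernStmt : Prop := ∃ φ G, Kern φ G

/-- row X, first part -/
def XiStmt : Prop :=
  Differentiable ℂ xi ∧ (∀ u, xi (1 - u) = xi u) ∧
    (∀ u, xi ((starRingEnd ℂ) u) = (starRingEnd ℂ) (xi u)) ∧
    (∀ u : ℂ, 0 < u.re → u ≠ 1 → xi u = u * (1 - u) * Gammaℝ u * riemannZeta u) ∧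
    ∃ C : ℝ, ∀ u : ℂ, 1 / 2 ≤ u.re → u.re ≤ 2 → ‖xi u‖ ≤ C * (1 + ‖u‖) ^ 3

/-- row X, second part -/
def ContourStmt : Prop :=
  ∀ A : ℂ → ℂ, Differentiable ℂ A → (∀ z, A (-z) = A z) →
    (∃ C : ℝ, ∀ z : ℂ, 0 ≤ z.re → z.re ≤ 3 / 2 → ‖A z‖ ≤ C * Real.exp (C * |z.im|)) →
    Integrable (fun y : ℝ => A (zz y) / zz y) → ∫ y : ℝ, A (zz y) / zz y = Real.pi * A 0

/-- row G, first part -/
def GamStmt : Prop :=
  ∃ (C t0 : ℝ) (k : ℕ), ∀ t y : ℝ, t0 ≤ t →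
    ‖Rat t (zz y) - cexp (zz y * ell t)‖ ≤ C * t ^ (-(1 / 4 : ℝ)) * (1 + |y|) ^ k

/-- row G, second part -/
def PhaseStmt : Prop :=
  (∀ t : ℝ, ‖hardyPhase t‖ = 1) ∧ (∀ t : ℝ, 1 ≤ t → ‖Mf t - hardyPhase t‖ ≤ 1 / t) ∧
    ∃ C t0 : ℝ, ∀ T t w : ℝ, t0 ≤ T → T ≤ t → T ≤ w →
      ‖hardyPhase t * cexp (-(I * th0 t)) - hardyPhase w * cexp (-(I * th0 w))‖ ≤ C * |t - w| / T

/-- row A: the approximate functional equation -/
def AfeStmt (φ : ℝ → ℝ) : Prop :=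
  ∃ C t0 : ℝ, ∀ (t L : ℝ) (N : ℕ), t0 ≤ t → |L| ≤ 4 → ell t + 5 ≤ Real.log N →
    ‖(hardyZ t : ℂ) - (hardyPhase t * P φ (ell t - L) N t +
      (starRingEnd ℂ) (hardyPhase t * P φ (ell t + L) N t))‖ ≤ C * t ^ (-(1 / 4 : ℝ))

/-- row M, first part -/
def PStmt : Prop :=
  ∀ φ : ℝ → ℝ, Step φ → ∃ Λ : ℝ, 0 ≤ Λ ∧ ∀ (l l' : ℝ) (N : ℕ) (t : ℝ),
    ‖P φ l N t‖ ≤ Λ * Maj N t ∧ ‖P φ l N t - P φ l' N t‖ ≤ Λ * |l - l'| * Maj N t

/-- row M, second part -/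
def FourthStmt : Prop :=
  ∀ ε : ℝ, 0 < ε → ∃ C : ℝ, ∀ (N : ℕ) (T1 T2 : ℝ), T1 ≤ T2 →
    ∫ t in T1..T2, (1 + Maj N t) ^ 4 ≤ C * ((N : ℝ) + 1) ^ ε * (T2 - T1 + (N : ℝ) ^ 2)

/-- row O: the term without stationary point -/
def CubeStmt : Prop :=
  ∃ C : ℝ, ∀ φ : ℝ → ℝ, Step φ → ∀ (w H L1 L2 L3 : ℝ) (N : ℕ), 10 ≤ w → 0 < H → H ≤ w / 10 →
    L1 + L2 + L3 + 4 ≤ 3 * ell w →
    ‖∫ t in (w - H)..(w + H), (tri w H t : ℂ) *
      (cexp (3 * (I * th0 t)) * (P φ L1 N t * P φ L2 N t * P φ L3 N t))‖ ≤ C * (N : ℝ) ^ (3 / 2 : ℝ)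

/-- row F: the term with a stationary point -/
def FubStmt : Prop :=
  ∀ φ : ℝ → ℝ, Step φ → ∃ C κ : ℝ, 0 < κ ∧ ∀ (K w H L1 L2 L3 : ℝ) (N : ℕ), 2 ≤ K → 0 < H →
    0 ≤ w → w ≤ 2 * K ^ 2 →
    L1 ≤ Real.log K + 10 → L2 ≤ Real.log K + 10 → L3 ≤ Real.log K + 10 →
    Real.exp 11 * K ≤ N → (N : ℝ) ≤ 2 * Real.exp 11 * K →
    ‖∫ t in (w - H)..(w + H), (tri w H t : ℂ) *
      (Mf t * (Real.exp (-(t - w) / (2 * K ^ 2)) : ℝ) *
        (P φ L1 N t * P φ L2 N t * (starRingEnd ℂ) (P φ L3 N t)))‖ ≤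
      C * (K ^ (2 - κ) + K ^ (7 / 2 : ℝ) / H)

/-- row W: one window -/
def WinStmt : Prop :=
  ∃ C κ T0 : ℝ, 0 < κ ∧ ∀ T : ℝ, T0 ≤ T →
    (∀ t : ℝ, T / 2 ≤ t → t ≤ 4 * T → |hardyZ t| ≤ C * (1 + Maj (NN T) t)) ∧
    ∀ w H : ℝ, T ≤ w → w ≤ 2 * T → T ^ (7 / 8 : ℝ) ≤ H → H ≤ T / 10 →
      |∫ t in (w - H)..(w + H), tri w H t * hardyZ t ^ 3| ≤
        C * T ^ (1 - κ) + C * (H / T) * ∫ t in (w - H)..(w + H), (1 + Maj (NN T) t) ^ 3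

/-- the target -/
def MainStmt : Prop :=
  ∃ c : ℝ, c < 1 ∧ ∃ C : ℝ, ∀ T : ℝ, 1 ≤ T → |∫ t in (0 : ℝ)..T, hardyZ t ^ 3| ≤ C * T ^ c

end Pool.Agent.MP_74e98a_nt.H93
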