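import Pool.Agent.MP_74e98a_nt.H93.Phase
import Pool.Agent.MP_ca0a54_nt.L0.ZetaA

/-! The ratio of Gamma factors in the approximate functional equation. -/

namespace Pool.Agent.MP_74e98a_nt.H93

open Complex Pool.Agent.MP_6f2ed2_nt.H1

lemma norm_Gamma_one_sq {τ : ℝ} (hτ : τ ≠ 0) :
    ‖Gamma (1 + I * τ)‖ ^ 2 = Real.pi * τ / Real.sinh (Real.pi * τ) := by
  have h0 : (I * τ : ℂ) ≠ 0 := mul_ne_zero I_ne_zero (ofReal_ne_zero.2 hτ)
  have h1 := Gamma_mul_Gamma_one_sub (I * τ)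
  have h2 : Gamma (1 + I * τ) = I * τ * Gamma (I * τ) := by rw [add_comm, Gamma_add_one _ h0]
  have h3 : (starRingEnd ℂ) (Gamma (1 + I * τ)) = Gamma (1 - I * τ) := by
    rw [← Gamma_conj]; congr 1; simp; ring
  have h4 : ((‖Gamma (1 + I * τ)‖ ^ 2 : ℝ) : ℂ) = I * τ * (Gamma (I * τ) * Gamma (1 - I * τ)) := by
    rw [← normSq_eq_norm_sq, ← mul_conj, h3, h2]; ring
  have h5 : sin (Real.pi * (I * τ)) = (Real.sinh (Real.pi * τ) : ℝ) * I := by
    rw [show (Real.pi * (I * τ) : ℂ) = ((Real.pi * τ : ℝ) : ℂ) * I by push_cast; ring, sin_mul_I,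
      ofReal_sinh]
  have h6 : ((Real.sinh (Real.pi * τ) : ℝ) : ℂ) ≠ 0 :=
    ofReal_ne_zero.2 (Real.sinh_ne_zero.2 (mul_ne_zero Real.pi_ne_zero hτ))
  rw [h1, h5] at h4
  apply ofReal_injective
  rw [h4, ofReal_div, ofReal_mul]
  field_simp

lemma Gamma_one_le (τ : ℝ) :
    ‖Gamma (1 + I * τ)‖ ^ 2 ≤ 100 * (1 + |τ|) * Real.exp (-(Real.pi * τ)) := by
  have hpi := Real.pi_lt_d2
  have hpi3 := Real.pi_gt_three
  rcases le_total |τ| 1 with h | h
  · have h1 : ‖Gamma (1 + I * τ)‖ ≤ 1 := by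
      simpa using MP_ca0a54_nt.L0.ZetaA.norm_Gamma_le (1 + I * τ) (by simp)
    have h2 : Real.exp (-4) ≤ Real.exp (-(Real.pi * τ)) :=
      Real.exp_le_exp.2 (by nlinarith [le_abs_self τ, (abs_le.1 h).2])
    have h3 : Real.exp 4 ≤ 100 := by
      have := Real.exp_one_lt_d9
      have e : Real.exp 4 = Real.exp 1 ^ 4 := by rw [← Real.exp_nat_mul]; norm_num
      rw [e]
      calc _ ≤ (3 : ℝ) ^ 4 := pow_le_pow_left₀ (Real.exp_pos _).le (by linarith) 4
        _ ≤ 100 := by norm_num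
    have h4 : 1 ≤ 100 * Real.exp (-4) := by
      rw [Real.exp_neg, ← div_eq_mul_inv, le_div_iff₀ (Real.exp_pos _)]; linarith
    have h5 : ‖Gamma (1 + I * τ)‖ ^ 2 ≤ 1 := pow_le_one₀ (norm_nonneg _) h1
    nlinarith [abs_nonneg τ, Real.exp_pos (-(Real.pi * τ))]
  · have hτ : τ ≠ 0 := by rintro rfl; simp at h; linarith
    have e : Real.pi * τ / Real.sinh (Real.pi * τ) =
        Real.pi * |τ| / Real.sinh (Real.pi * |τ|) := by
      rcases abs_choice τ with h1 | h1 <;> rw [h1]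
      rw [mul_neg, Real.sinh_neg, neg_div_neg_eq]
    have h2 : Real.exp (Real.pi * |τ|) / 4 ≤ Real.sinh (Real.pi * |τ|) := by
      rw [Real.sinh_eq]
      have h3 : Real.exp (-(Real.pi * |τ|)) ≤ 1 := Real.exp_le_one_iff.2 (by nlinarith)
      have h4 := Real.add_one_le_exp (Real.pi * |τ|)
      nlinarith
    have h3 : Real.exp (-(Real.pi * |τ|)) ≤ Real.exp (-(Real.pi * τ)) :=
      Real.exp_le_exp.2 (by nlinarith [le_abs_self τ])
    rw [norm_Gamma_one_sq hτ, e]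
    calc _ ≤ Real.pi * |τ| / (Real.exp (Real.pi * |τ|) / 4) := by gcongr
      _ = 4 * Real.pi * |τ| * Real.exp (-(Real.pi * |τ|)) := by rw [Real.exp_neg]; field_simp
      _ ≤ _ := by gcongr <;> linarith

lemma re_mul_Lu (w : ℂ) (u : ℝ) : (w * Lu u).re = w.re * Real.log u - w.im * (Real.pi / 2) := by
  have e : Lu u = (Real.log u : ℂ) + ((Real.pi / 2 : ℝ) : ℂ) * I := by rw [Lu]; push_cast; ring
  rw [mul_re, e]
  simp only [add_re, add_im, ofReal_re, ofReal_im, mul_re, mul_im, I_re, I_im]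
  ring

lemma Gamma_quarter_ge {t : ℝ} (ht : 8 ≤ t) :
    Real.exp (-(Real.pi * t / 2)) ≤
      ((1 + Real.exp 6) * (t / 2)) ^ 2 * ‖Gamma (1 / 4 + I * t / 2)‖ ^ 2 := by
  have hw : ‖(1 / 4 : ℂ)‖ = 1 / 4 := by simp
  have hr := ratio (a := 1 / 4 + I * t / 2) (u := t / 2) (by simp) (by simp; norm_num) (by simp)
    (by linarith) (w := 1 / 4) (by rw [hw]; linarith)
  rw [hw, show (1 / 4 + I * t / 2 + 1 / 4 : ℂ) = 1 / 2 + I * t / 2 by ring] at hr
  have h1 : (5 * (1 / 4) + 3 * (1 / 4) ^ 2) / (t / 2) ≤ 1 := by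
    rw [div_le_one (by linarith)]; linarith
  have h2 := (norm_le_norm_sub_add _ 1).trans (add_le_add_left (hr.trans
    (mul_le_of_le_one_right (Real.exp_pos _).le h1)) _)
  have ha : 0 < ‖Gamma (1 / 4 + I * t / 2)‖ := norm_pos_iff.2 (b_ne_quarter t)
  have hl : 0 ≤ Real.log (t / 2) := Real.log_nonneg (by linarith)
  have h3 : (t / 2)⁻¹ ≤ ‖cexp (-(1 / 4 * Lu (t / 2)))‖ := by
    rw [norm_exp, neg_re, re_mul_Lu, ← Real.exp_log (show 0 < t / 2 by linarith), ← Real.exp_neg,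
      Real.log_exp]
    refine Real.exp_le_exp.2 ?_
    simp; linarith
  rw [norm_mul, norm_div, norm_one] at h2
  have h4 : ‖Gamma (1 / 2 + I * t / 2)‖ ≤
      (1 + Real.exp 6) * (t / 2) * ‖Gamma (1 / 4 + I * t / 2)‖ := by
    have := (mul_le_mul_of_nonneg_left h3 (by positivity)).trans h2
    rw [← div_eq_mul_inv, div_div, div_le_iff₀ (by positivity)] at this
    linarith
  have h5 : Real.exp (-(Real.pi * t / 2)) ≤ ‖Gamma (1 / 2 + I * t / 2)‖ ^ 2 := by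
    rw [b_normSq_half, le_div_iff₀ (Real.cosh_pos _), Real.cosh_eq]
    have e1 : Real.exp (-(Real.pi * t / 2)) * Real.exp (Real.pi * t / 2) = 1 := by
      rw [← Real.exp_add]; simp
    have e2 : Real.exp (-(Real.pi * t / 2)) ≤ 1 :=
      Real.exp_le_one_iff.2 (by nlinarith [Real.pi_pos])
    nlinarith [Real.pi_gt_three, Real.exp_pos (-(Real.pi * t / 2))]
  rw [← mul_pow]
  exact h5.trans (pow_le_pow_left₀ (norm_nonneg _) h4 2)

/-- the normalised ratio -/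
noncomputable def rho (t y : ℝ) : ℂ :=
  Gamma (1 / 4 + I * t / 2 + zz y / 2) / Gamma (1 / 4 + I * t / 2) *
    cexp (-(zz y / 2 * Lu (t / 2)))

/-- the polynomial factor -/
noncomputable def qq (t y : ℝ) : ℂ :=
  (1 / 2 + I * t + zz y) * (1 - (1 / 2 + I * t + zz y)) /
    ((1 / 2 + I * t) * (1 - (1 / 2 + I * t)))

lemma Rat_eq {t : ℝ} (ht : 0 < t) (y : ℝ) :
    Rat t (zz y) = cexp (zz y * ell t) * (rho t y * qq t y) := by
  have h : cexp (Real.log Real.pi * (-(1 / 2 + I * t + zz y) / 2)) /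
      cexp (Real.log Real.pi * (-(1 / 2 + I * t) / 2)) * cexp (-(I * Real.pi * zz y / 4)) =
      cexp (zz y * ell t) * cexp (-(zz y / 2 * Lu (t / 2))) := by
    rw [← Complex.exp_sub, ← Complex.exp_add, ← Complex.exp_add, ell_eq ht, Lu]
    congr 1; push_cast; ring
  unfold Rat rho qq
  rw [Gammaℝ_def, Gammaℝ_def, b_cpow, b_cpow,
    show ((1 / 2 + I * t + zz y) / 2 : ℂ) = 1 / 4 + I * t / 2 + zz y / 2 by ring,
    show ((1 / 2 + I * t) / 2 : ℂ) = 1 / 4 + I * t / 2 by ring, mul_div_mul_comm]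
  generalize (1 / 2 + I * t + zz y) * (1 - (1 / 2 + I * t + zz y)) /
    ((1 / 2 + I * t) * (1 - (1 / 2 + I * t))) = q
  generalize Gamma (1 / 4 + I * t / 2 + zz y / 2) / Gamma (1 / 4 + I * t / 2) = g
  linear_combination g * q * h

lemma norm_zz (y : ℝ) : ‖zz y‖ ≤ 2 * (1 + |y|) := by
  unfold zz
  refine (norm_add_le _ _).trans ?_
  simp
  linarith [abs_nonneg y]

lemma qq_close {t : ℝ} (ht : 1 ≤ t) (y : ℝ) : ‖qq t y - 1‖ ≤ 8 * (1 + |y|) ^ 2 / t := by
  have h1 : t ≤ ‖(1 / 2 + I * t : ℂ)‖ := by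
    simpa using (le_abs_self _).trans (abs_im_le_norm (1 / 2 + I * t : ℂ))
  have h2 : t ≤ ‖(1 - (1 / 2 + I * t) : ℂ)‖ := by
    simpa using (neg_le_abs _).trans (abs_im_le_norm (1 - (1 / 2 + I * t) : ℂ))
  have hz := norm_zz y
  unfold qq
  generalize (1 / 2 + I * t : ℂ) = s at *
  have n1 : s ≠ 0 := by rintro rfl; simp at h1; linarith
  have n2 : 1 - s ≠ 0 := by intro h; rw [h] at h2; simp at h2; linarith
  have e : (s + zz y) * (1 - (s + zz y)) / (s * (1 - s)) - 1 =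
      zz y / s - zz y / (1 - s) - zz y / s * (zz y / (1 - s)) := by field_simp; ring
  have hY : 1 ≤ 1 + |y| := by linarith [abs_nonneg y]
  generalize 1 + |y| = Y at *
  have a1 : ‖zz y / s‖ ≤ 2 * Y / t := by rw [norm_div]; gcongr
  have a2 : ‖zz y / (1 - s)‖ ≤ 2 * Y / t := by rw [norm_div]; gcongr
  have a3 : ‖zz y / (1 - s)‖ ≤ 2 * Y := a2.trans (div_le_self (by linarith) ht)
  rw [e]
  refine (norm_sub_le _ _).trans ((add_le_add_left (norm_sub_le _ _) _).trans ?_)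
  rw [norm_mul]
  calc _ ≤ 2 * Y / t + 2 * Y / t + 2 * Y / t * (2 * Y) := by gcongr
    _ = (4 * Y + 4 * Y ^ 2) / t := by ring
    _ ≤ _ := by gcongr; nlinarith

lemma rho_le {t : ℝ} (ht : 8 ≤ t) (y : ℝ) (h : t / 2 ≤ (1 + |y|) ^ 2) :
    ‖rho t y‖ ≤ 15 * (1 + Real.exp 6) * (1 + |y|) ^ 3 := by
  have e1 : (1 / 4 + I * t / 2 + zz y / 2 : ℂ) = 1 + I * ((t + y) / 2 : ℝ) := by
    unfold zz; push_cast; ring
  have h1 := Gamma_one_le ((t + y) / 2)
  have h2 := Gamma_quarter_ge ht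
  have ha : 0 < ‖Gamma (1 / 4 + I * t / 2)‖ := norm_pos_iff.2 (b_ne_quarter t)
  have hl : 0 ≤ Real.log (t / 2) := Real.log_nonneg (by linarith)
  have h3 : ‖cexp (-(zz y / 2 * Lu (t / 2)))‖ ^ 2 ≤ Real.exp (Real.pi * y / 2) := by
    rw [norm_exp, neg_re, re_mul_Lu, ← Real.exp_nat_mul]
    refine Real.exp_le_exp.2 ?_
    simp [zz]; linarith
  have h4 : 1 + |(t + y) / 2| ≤ 2 * (1 + |y|) ^ 2 := by
    have : |(t + y) / 2| ≤ t / 2 + |y| := by
      rw [abs_le]; constructor <;> linarith [neg_abs_le y, le_abs_self y, abs_nonneg y]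
    nlinarith [abs_nonneg y]
  have hY : 1 ≤ 1 + |y| := by linarith [abs_nonneg y]
  generalize 1 + |y| = Y at *
  have hD := Real.exp_pos 6
  refine (pow_le_pow_iff_left₀ (norm_nonneg _) (by positivity) two_ne_zero).1 ?_
  rw [rho, e1, norm_mul, norm_div, mul_pow, div_pow, div_mul_eq_mul_div,
    div_le_iff₀ (by positivity)]
  calc _ ≤ 100 * (2 * Y ^ 2) * Real.exp (-(Real.pi * ((t + y) / 2))) *
        Real.exp (Real.pi * y / 2) := by
        refine mul_le_mul (h1.trans ?_) h3 (by positivity) (by positivity)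
        gcongr
    _ = 200 * Y ^ 2 * Real.exp (-(Real.pi * t / 2)) := by
        rw [mul_assoc _ (Real.exp _), ← Real.exp_add,
          show -(Real.pi * ((t + y) / 2)) + Real.pi * y / 2 = -(Real.pi * t / 2) by ring]; ring
    _ ≤ 225 * Y ^ 2 * (((1 + Real.exp 6) * Y ^ 2) ^ 2 * ‖Gamma (1 / 4 + I * t / 2)‖ ^ 2) := by
        refine mul_le_mul (by nlinarith) (h2.trans ?_) (by positivity) (by positivity)
        gcongr
    _ = _ := by ring

lemma rho_qq {t : ℝ} (ht : 8 ≤ t) (y : ℝ) :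
    ‖rho t y * qq t y - 1‖ ≤ 300 * (1 + Real.exp 6) * (1 + |y|) ^ 7 / t := by
  have ht0 : 0 < t := by linarith
  have hq := qq_close (by linarith : 1 ≤ t) y
  have hw : ‖zz y / 2‖ ≤ 1 + |y| := by
    have := norm_zz y
    rw [norm_div]; simp; linarith
  have hD := Real.exp_pos 6
  have hY : 1 ≤ 1 + |y| := by linarith [abs_nonneg y]
  have hq2 : ‖qq t y‖ ≤ 9 * (1 + |y|) ^ 2 := by
    have := (norm_le_norm_sub_add _ 1).trans (add_le_add_left (hq.trans
      (div_le_self (by positivity) (by linarith))) _)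
    rw [norm_one] at this
    nlinarith
  rcases le_total (‖zz y / 2‖ ^ 2) (t / 2) with h | h
  · have hr : ‖rho t y - 1‖ ≤ _ := ratio (a := 1 / 4 + I * t / 2) (u := t / 2) (by simp)
      (by simp; norm_num) (by simp) (by linarith) h
    generalize 1 + |y| = Y at *
    have hr2 : ‖rho t y - 1‖ ≤ Real.exp 6 * (16 * Y ^ 2 / t) := by
      refine hr.trans (mul_le_mul_of_nonneg_left ?_ hD.le)
      have := pow_le_pow_left₀ (norm_nonneg _) hw 2
      rw [div_le_div_iff₀ (by positivity) ht0]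
      nlinarith [mul_le_mul_of_nonneg_right (show 5 * ‖zz y / 2‖ + 3 * ‖zz y / 2‖ ^ 2 ≤ 8 * Y ^ 2
        by nlinarith) ht0.le]
    have e : rho t y * qq t y - 1 = (rho t y - 1) * qq t y + (qq t y - 1) := by ring
    have p2 : Y ^ 2 ≤ Y ^ 7 := pow_le_pow_right₀ hY (by norm_num)
    have p4 : Y ^ 4 ≤ Y ^ 7 := pow_le_pow_right₀ hY (by norm_num)
    rw [e]
    refine (norm_add_le _ _).trans ?_
    rw [norm_mul]
    calc _ ≤ Real.exp 6 * (16 * Y ^ 2 / t) * (9 * Y ^ 2) + 8 * Y ^ 2 / t := by gcongr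
      _ = (144 * Real.exp 6 * Y ^ 4 + 8 * Y ^ 2) / t := by ring
      _ ≤ _ := by gcongr; nlinarith [pow_pos (lt_of_lt_of_le one_pos hY) 7]
  · have h2 : t / 2 ≤ (1 + |y|) ^ 2 := h.trans (pow_le_pow_left₀ (norm_nonneg _) hw 2)
    have hr := rho_le ht y h2
    generalize 1 + |y| = Y at *
    have p5 : 1 ≤ Y ^ 5 := one_le_pow₀ hY
    refine (norm_sub_le _ _).trans ?_
    rw [norm_mul, norm_one, le_div_iff₀ ht0]
    calc _ ≤ (15 * (1 + Real.exp 6) * Y ^ 3 * (9 * Y ^ 2) + 15 * (1 + Real.exp 6) * Y ^ 5) *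
          (2 * Y ^ 2) := by
          gcongr
          · nlinarith
          · linarith
      _ = _ := by ring

theorem gam : GamStmt := by
  refine ⟨300 * (1 + Real.exp 6), 8, 7, fun t y ht => ?_⟩
  have ht0 : 0 < t := by linarith
  have h1 : ‖cexp (zz y * ell t)‖ ≤ t ^ (3 / 4 : ℝ) := by
    rw [norm_exp, Real.rpow_def_of_pos ht0]
    refine Real.exp_le_exp.2 ?_
    have : Real.log (t / (2 * Real.pi)) ≤ Real.log t :=
      Real.log_le_log (by positivity) (div_le_self ht0.le (by linarith [Real.pi_gt_three]))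
    simp [zz, ell]; linarith
  have e : t ^ (3 / 4 : ℝ) / t = t ^ (-(1 / 4 : ℝ)) := by
    rw [← Real.rpow_sub_one ht0.ne']; norm_num
  rw [Rat_eq ht0, ← mul_sub_one, norm_mul, ← e]
  calc _ ≤ t ^ (3 / 4 : ℝ) * (300 * (1 + Real.exp 6) * (1 + |y|) ^ 7 / t) := by
        gcongr; exact rho_qq ht y
    _ = _ := by ring

end Pool.Agent.MP_74e98a_nt.H93
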