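import Pool.Agent.MP_74e98a_nt.H93.Ratio
import Pool.Agent.MP_74e98a_nt.H93.Defs

/-! The phase of Hardy's function. -/

namespace Pool.Agent.MP_74e98a_nt.H93

open Complex Pool.Agent.MP_6f2ed2_nt.H1

lemma w_close (t : ℝ) (ht : 1 ≤ t) : ‖b_w t - 1‖ ≤ 1 / t := by
  have ht0 : 0 < t := by linarith
  have h1 := b_re_half t ht0.le
  have h4 := b_w_sq t
  have h5 := b_normSq_w t
  have h6 := b_P_large t ht
  have h7 := b_q_bound t ht
  set q := Real.exp (-(Real.pi * t)) with hq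
  have hq0 : 0 < q := Real.exp_pos _
  generalize b_w t = w at *
  have hw1 : ‖w‖ ^ 2 ≤ 1 := by
    rw [h5, div_le_one (by positivity)]; linarith
  have hD : ‖w ^ 2 - 1‖ ≤ 1 / (3 * t) + q := by
    have e : w ^ 2 - 1 = (b_P t - 1) - w ^ 2 * (I * q) := by rw [← h4]; ring
    rw [e]
    refine (norm_sub_le _ _).trans (add_le_add h6 ?_)
    rw [norm_mul, norm_mul, norm_pow, norm_I, one_mul, norm_real, Real.norm_eq_abs, abs_of_pos hq0]
    nlinarith
  have hp : 3 / 2 ≤ ‖w + 1‖ := by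
    have := re_le_norm (w + 1)
    simp at this
    linarith
  have hm : ‖w - 1‖ * (3 / 2) ≤ 1 / (3 * t) + q := by
    have e : w ^ 2 - 1 = (w - 1) * (w + 1) := by ring
    rw [e, norm_mul] at hD
    exact (mul_le_mul_of_nonneg_left hp (norm_nonneg _)).trans hD
  have hq2 : q ≤ 0.05 / t := by
    refine h7.trans ?_
    rw [div_le_div_iff₀ (by positivity) (by positivity)]
    nlinarith
  have e1 : 1 / (3 * t) = 1 / 3 * (1 / t) := by field_simp
  have e2 : 0.05 / t = 0.05 * (1 / t) := by ring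
  have : 0 < 1 / t := by positivity
  rw [e1] at hm; rw [e2] at hq2
  linarith

lemma Mf_close (t : ℝ) (ht : 1 ≤ t) : ‖Mf t - hardyPhase t‖ ≤ 1 / t := by
  have e : Mf t - hardyPhase t = (b_w t - 1) * hardyPhase t := by
    have := b_hardy_ne t
    unfold b_w; field_simp
  rw [e, norm_mul, b_norm_hardyPhase, mul_one]
  exact w_close t ht

lemma unit_close {ρ : ℂ} (h : ρ ≠ 0) : ‖ρ / (‖ρ‖ : ℂ) - 1‖ ≤ 2 * ‖ρ - 1‖ := by
  have h0 : 0 < ‖ρ‖ := norm_pos_iff.2 h
  have h1 : ‖ρ / (‖ρ‖ : ℂ) - ρ‖ = |1 - ‖ρ‖| := by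
    have : ρ / (‖ρ‖ : ℂ) - ρ = ρ / (‖ρ‖ : ℂ) * ((1 - ‖ρ‖ : ℝ) : ℂ) := by
      have : (‖ρ‖ : ℂ) ≠ 0 := ofReal_ne_zero.2 h0.ne'
      push_cast; field_simp
    rw [this, norm_mul, norm_div, norm_real, norm_norm, div_self h0.ne', one_mul, norm_real,
      Real.norm_eq_abs]
  have h2 : |1 - ‖ρ‖| ≤ ‖ρ - 1‖ := by
    have := abs_norm_sub_norm_le (1 : ℂ) ρ
    rwa [norm_one, norm_sub_rev] at this
  have h3 := norm_add_le (ρ / (‖ρ‖ : ℂ) - ρ) (ρ - 1)
  rw [sub_add_sub_cancel, h1] at h3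
  linarith

/-- the phase divided by its main part -/
noncomputable def Fq (t : ℝ) : ℂ := hardyPhase t * cexp (-(I * th0 t))

lemma norm_Fq (t : ℝ) : ‖Fq t‖ = 1 := by
  rw [Fq, norm_mul, b_norm_hardyPhase, norm_exp]; simp

lemma ell_eq {t : ℝ} (ht : 0 < t) : ell t = (Real.log (t / 2) - Real.log Real.pi) / 2 := by
  rw [ell, ← Real.log_div (by positivity) Real.pi_ne_zero, div_div]

lemma th0_step {t h : ℝ} (ht : 0 < t) (h0 : 0 ≤ h) (h1 : h ≤ 1) :
    |th0 (t + h) - th0 t - h * ell t| ≤ h / t := by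
  have hth : 0 < t + h := by linarith
  have e : th0 (t + h) - th0 t - h * ell t = ((t + h) * Real.log ((t + h) / t) - h) / 2 := by
    rw [th0, th0, ell_eq ht, ell_eq hth, Real.log_div hth.ne' ht.ne',
      Real.log_div hth.ne' two_ne_zero, Real.log_div ht.ne' two_ne_zero]
    ring
  have u1 : Real.log ((t + h) / t) ≤ h / t := by
    have := Real.log_le_sub_one_of_pos (show 0 < (t + h) / t by positivity)
    have e2 : (t + h) / t - 1 = h / t := by field_simp; ring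
    linarith
  have u2 : h / (t + h) ≤ Real.log ((t + h) / t) := by
    have := Real.one_sub_inv_le_log_of_pos (show 0 < (t + h) / t by positivity)
    have e2 : 1 - ((t + h) / t)⁻¹ = h / (t + h) := by field_simp; ring
    linarith
  have u3 : h ≤ (t + h) * Real.log ((t + h) / t) := by
    rw [div_le_iff₀ hth] at u2; linarith
  have u4 : (t + h) * Real.log ((t + h) / t) ≤ h + h * (h / t) := by
    calc _ ≤ (t + h) * (h / t) := by gcongr
      _ = _ := by field_simp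
  have u5 : 0 ≤ h / t := by positivity
  rw [e, abs_le]
  constructor <;> nlinarith

lemma Fq_step {t h : ℝ} (ht : 8 ≤ t) (h0 : 0 ≤ h) (h1 : h ≤ 1) :
    ‖Fq (t + h) - Fq t‖ ≤ (1 + 16 * Real.exp 6) * h / t := by
  have ht0 : 0 < t := by linarith
  have hw : ‖(I * h / 2 : ℂ)‖ = h / 2 := by
    rw [norm_div, norm_mul, norm_I, norm_real, Real.norm_of_nonneg h0]; simp
  have hr := ratio (a := 1 / 4 + I * t / 2) (u := t / 2) (by simp) (by simp; norm_num) (by simp)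
    (by linarith) (w := I * h / 2) (by rw [hw]; nlinarith)
  rw [hw] at hr
  set ρ := Gamma (1 / 4 + I * t / 2 + I * h / 2) / Gamma (1 / 4 + I * t / 2) *
    cexp (-(I * h / 2 * Lu (t / 2))) with hρ
  have ha := b_ne_quarter t
  have ea : (1 / 4 + I * t / 2 + I * h / 2 : ℂ) = 1 / 4 + I * ((t + h : ℝ) : ℂ) / 2 := by
    push_cast; ring
  have hb := b_ne_quarter (t + h)
  have hρ0 : ρ ≠ 0 := by
    rw [hρ, ea]; exact mul_ne_zero (div_ne_zero hb ha) (exp_ne_zero _)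
  set r : ℝ := Real.exp (-(Real.pi * h / 4)) with hr'
  have hG : Gamma (1 / 4 + I * ((t + h : ℝ) : ℂ) / 2) =
      Gamma (1 / 4 + I * t / 2) * (r * cexp (I * (h / 2 * Real.log (t / 2) : ℝ))) * ρ := by
    have : (r : ℂ) * cexp (I * (h / 2 * Real.log (t / 2) : ℝ)) *
        cexp (-(I * h / 2 * Lu (t / 2))) = 1 := by
      rw [hr', ofReal_exp, ← Complex.exp_add, ← Complex.exp_add, Lu, ← Complex.exp_zero]
      congr 1; push_cast
      linear_combination (-(Real.pi * h / 4) : ℂ) * I_mul_I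
    rw [hρ, ea]
    generalize Gamma (1 / 4 + I * ((t + h : ℝ) : ℂ) / 2) = B
    generalize Gamma (1 / 4 + I * t / 2) = A at ha
    calc B = A * A⁻¹ * B * 1 := by rw [mul_inv_cancel₀ ha]; ring
      _ = _ := by rw [← this]; ring
  have hN : ‖Gamma (1 / 4 + I * ((t + h : ℝ) : ℂ) / 2)‖ = ‖Gamma (1 / 4 + I * t / 2)‖ * r * ‖ρ‖ := by
    rw [hG, norm_mul, norm_mul, norm_mul, norm_real, norm_exp_I_mul_ofReal, mul_one,
      Real.norm_of_nonneg (Real.exp_pos _).le]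
  set β : ℝ := th0 (t + h) - th0 t - h * ell t with hβ
  have hF : Fq (t + h) = Fq t * (cexp (I * (-β : ℝ)) * (ρ / (‖ρ‖ : ℂ))) := by
    have h2 : cexp (Real.log Real.pi * -(I * ((t + h : ℝ) : ℂ) / 2)) *
        cexp (I * (h / 2 * Real.log (t / 2) : ℝ)) * cexp (-(I * th0 (t + h))) =
        cexp (Real.log Real.pi * -(I * t / 2)) * cexp (-(I * th0 t)) * cexp (I * (-β : ℝ)) := by
      simp only [← Complex.exp_add]
      congr 1
      rw [hβ, ell_eq ht0]; push_cast; ring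
    have h3 : (r : ℂ) ≠ 0 := ofReal_ne_zero.2 (Real.exp_pos _).ne'
    have h4 : (‖ρ‖ : ℂ) ≠ 0 := ofReal_ne_zero.2 (norm_ne_zero_iff.2 hρ0)
    have h5 : (‖Gamma (1 / 4 + I * t / 2)‖ : ℂ) ≠ 0 := ofReal_ne_zero.2 (norm_ne_zero_iff.2 ha)
    unfold Fq hardyPhase
    rw [hN, hG, b_cpow, b_cpow, ofReal_mul (‖Gamma (1 / 4 + I * t / 2)‖ * r),
      ofReal_mul ‖Gamma (1 / 4 + I * t / 2)‖]
    generalize (‖Gamma (1 / 4 + I * t / 2)‖ : ℂ) = n at h5
    generalize Gamma (1 / 4 + I * t / 2) = A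
    linear_combination (exp := 1) (A * n⁻¹ * ρ * (‖ρ‖ : ℂ)⁻¹) * h2 +
      (cexp (Real.log Real.pi * -(I * ((t + h : ℝ) : ℂ) / 2)) *
        cexp (I * (h / 2 * Real.log (t / 2) : ℝ)) * cexp (-(I * th0 (t + h))) *
        (A * n⁻¹ * ρ * (‖ρ‖ : ℂ)⁻¹)) * mul_inv_cancel₀ h3
  have e : Fq (t + h) - Fq t =
      Fq t * (cexp (I * (-β : ℝ)) * (ρ / (‖ρ‖ : ℂ) - 1) + (cexp (I * (-β : ℝ)) - 1)) := by
    rw [hF]; ring
  have b1 : ‖cexp (I * (-β : ℝ)) - 1‖ ≤ h / t :=
    (Real.norm_exp_I_mul_ofReal_sub_one_le).trans (by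
      rw [Real.norm_eq_abs, abs_neg]; exact th0_step ht0 h0 h1)
  have b2 : ‖ρ - 1‖ ≤ Real.exp 6 * (8 * (h / t)) := by
    refine hr.trans (mul_le_mul_of_nonneg_left ?_ (Real.exp_pos _).le)
    rw [div_le_iff₀ (by positivity)]
    have : 8 * (h / t) * (t / 2) = 4 * h := by field_simp; ring
    nlinarith
  have b3 := unit_close hρ0
  rw [e, norm_mul, norm_Fq, one_mul]
  refine (norm_add_le _ _).trans ?_
  rw [norm_mul, norm_exp_I_mul_ofReal, one_mul, mul_div_assoc (1 + 16 * Real.exp 6)]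
  nlinarith

lemma Fq_chain {T : ℝ} (hT : 8 ≤ T) (n : ℕ) : ∀ t h : ℝ, T ≤ t → 0 ≤ h → h ≤ n →
    ‖Fq (t + h) - Fq t‖ ≤ (1 + 16 * Real.exp 6) * h / T := by
  have base : ∀ t h : ℝ, T ≤ t → 0 ≤ h → h ≤ 1 →
      ‖Fq (t + h) - Fq t‖ ≤ (1 + 16 * Real.exp 6) * h / T := fun t h ht h0 h1 =>
    (Fq_step (hT.trans ht) h0 h1).trans (by gcongr)
  induction n with
  | zero => exact fun t h ht h0 h1 => base t h ht h0 (by simp at h1; linarith)
  | succ n ih =>
    intro t h ht h0 h1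
    rcases le_total h 1 with h2 | h2
    · exact base t h ht h0 h2
    · have a1 := base t 1 ht zero_le_one le_rfl
      have a2 := ih (t + 1) (h - 1) (by linarith) (by linarith) (by push_cast at h1; linarith)
      rw [show t + 1 + (h - 1) = t + h by ring] at a2
      have a3 := norm_add_le (Fq (t + h) - Fq (t + 1)) (Fq (t + 1) - Fq t)
      rw [sub_add_sub_cancel] at a3
      have e : (1 + 16 * Real.exp 6) * h / T =
          (1 + 16 * Real.exp 6) * (h - 1) / T + (1 + 16 * Real.exp 6) * 1 / T := by ring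
      linarith

theorem phase : PhaseStmt := by
  refine ⟨b_norm_hardyPhase, Mf_close, 1 + 16 * Real.exp 6, 8, fun T t w hT ht hw => ?_⟩
  change ‖Fq t - Fq w‖ ≤ _
  rcases le_total t w with h | h
  · have := Fq_chain hT ⌈w - t⌉₊ t (w - t) ht (by linarith) (Nat.le_ceil _)
    rwa [add_sub_cancel, norm_sub_rev, ← abs_of_nonneg (sub_nonneg.2 h), abs_sub_comm] at this
  · have := Fq_chain hT ⌈t - w⌉₊ w (t - w) hw (by linarith) (Nat.le_ceil _)
    rwa [add_sub_cancel, ← abs_of_nonneg (sub_nonneg.2 h)] at this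

end Pool.Agent.MP_74e98a_nt.H93
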