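import Pool.Agent.MP_6f2ed2_nt.H1.GammaRatio

/-! The ratio `Γ(a + w) / Γ(a)` for `a` high up in a vertical strip. -/

namespace Pool.Agent.MP_74e98a_nt.H93

open Complex Filter Topology Finset

lemma log_err {z : ℂ} (hz : ‖z‖ ≤ 1 / 2) : ‖log (1 + z) - z‖ ≤ ‖z‖ ^ 2 := by
  refine (norm_log_one_add_sub_self_le (by linarith)).trans ?_
  have h1 : (1 - ‖z‖)⁻¹ ≤ 2 := by
    rw [inv_le_comm₀ (by linarith) (by norm_num)]; linarith
  have h2 : 0 ≤ ‖z‖ ^ 2 := by positivity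
  nlinarith

lemma log_mul_re {x y : ℂ} (hx : 0 ≤ x.re) (hx0 : x ≠ 0) (hy : 0 < y.re) :
    log (x * y) = log x + log y := by
  have hy0 : y ≠ 0 := by rintro rfl; simp at hy
  have h1 := abs_le.1 (abs_arg_le_pi_div_two_iff.2 hx)
  have h2 := abs_lt.1 (abs_arg_lt_pi_div_two_iff.2 (Or.inl hy))
  exact log_mul hx0 hy0 ⟨by linarith [h1.1, h2.1], by linarith [h1.2, h2.2]⟩

lemma re_one_add_pos {z : ℂ} (hz : ‖z‖ ≤ 1 / 2) : 0 < (1 + z).re := by
  have := (abs_le.1 (abs_re_le_norm z)).1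
  simp only [add_re, one_re]; linarith

section

variable {a : ℂ} {u : ℝ}

lemma u_le_norm (him : a.im = u) (j : ℕ) : u ≤ ‖a + j‖ := by
  have := (le_abs_self _).trans (abs_im_le_norm (a + j))
  simpa [him] using this

lemma sum_inv_sq (h0 : 0 < a.re) (him : a.im = u) (hu : 4 ≤ u) (n : ℕ) :
    ∑ j ∈ range n, ‖(a + j)⁻¹‖ ^ 2 ≤ 3 / u := by
  refine MP_6f2ed2_nt.H1.b_tele 3 u (by norm_num) (by linarith) _ (fun j => ?_) n
  have hj : (0 : ℝ) ≤ j := Nat.cast_nonneg j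
  have h1 : ‖a + j‖ ^ 2 = (a.re + j) ^ 2 + u ^ 2 := by
    rw [← normSq_eq_norm_sq, normSq_apply]; simp [him]; ring
  rw [norm_inv, inv_pow, h1, inv_eq_one_div, div_le_div_iff₀ (by positivity) (by positivity)]
  nlinarith [sq_nonneg ((j : ℝ) - u), sq_nonneg (j : ℝ), mul_nonneg h0.le hj, sq_nonneg a.re,
    sq_nonneg ((j : ℝ) - 1)]

lemma norm_inv_le (him : a.im = u) (hu : 4 ≤ u) (j : ℕ) : ‖(a + j)⁻¹‖ ≤ 1 / u := by
  rw [norm_inv, one_div]
  exact inv_anti₀ (by linarith) (u_le_norm him j)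

lemma add_ne (him : a.im = u) (hu : 4 ≤ u) (j : ℕ) : a + j ≠ 0 := by
  have := u_le_norm him j
  intro h; rw [h, norm_zero] at this; linarith

lemma log_tele (h0 : 0 < a.re) (him : a.im = u) (hu : 4 ≤ u) (n : ℕ) :
    ∑ j ∈ range n, log (1 + (a + j)⁻¹) = log (a + n) - log a := by
  induction n with
  | zero => simp
  | succ n ih =>
    have h1 : ‖(a + n)⁻¹‖ ≤ 1 / 2 :=
      (norm_inv_le him hu n).trans (one_div_le_one_div_of_le (by norm_num) (by linarith))
    have h2 : a + ((n + 1 : ℕ) : ℂ) = (a + n) * (1 + (a + n)⁻¹) := by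
      have := add_ne him hu n
      push_cast; field_simp; ring
    have h3 : 0 ≤ (a + n).re := by
      simp only [add_re, natCast_re]; linarith [Nat.cast_nonneg (α := ℝ) n]
    rw [sum_range_succ, ih, h2, log_mul_re h3 (add_ne him hu n) (re_one_add_pos h1)]
    ring

/-- the logarithm of `i u` -/
noncomputable def Lu (u : ℝ) : ℂ := (Real.log u : ℂ) + Real.pi / 2 * I

lemma log_a (h0 : 0 < a.re) (h1 : a.re ≤ 1) (him : a.im = u) (hu : 4 ≤ u) :
    ‖log a - Lu u‖ ≤ 2 / u := by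
  have hu0 : (u : ℂ) ≠ 0 := ofReal_ne_zero.2 (by linarith)
  have hz : ‖(a.re : ℂ) / (u * I)‖ ≤ 1 / u := by
    rw [norm_div, norm_mul, norm_I, mul_one, norm_real, norm_real, Real.norm_of_nonneg h0.le,
      Real.norm_of_nonneg (by linarith)]
    gcongr
  have hz2 : ‖(a.re : ℂ) / (u * I)‖ ≤ 1 / 2 :=
    hz.trans (one_div_le_one_div_of_le (by norm_num) (by linarith))
  have e : a = (u * I) * (1 + (a.re : ℂ) / (u * I)) := by
    conv_lhs => rw [← re_add_im a, him]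
    field_simp; ring
  have e2 : log a = Lu u + log (1 + (a.re : ℂ) / (u * I)) := by
    conv_lhs => rw [e]
    rw [log_mul_re (by simp) (mul_ne_zero hu0 I_ne_zero) (re_one_add_pos hz2),
      log_ofReal_mul (by linarith) I_ne_zero, log_I, Lu]
  rw [e2, add_sub_cancel_left]
  refine (norm_log_one_add_half_le_self hz2).trans ?_
  have : 2 / u = 2 * (1 / u) := by ring
  have : 0 < 1 / u := by positivity
  linarith

lemma seq_ratio (him : a.im = u) (hu : 4 ≤ u) {w : ℂ} (hw : ‖w‖ ≤ u / 2) (n : ℕ) (hn : 1 ≤ n) :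
    GammaSeq (a + w) n / GammaSeq a n =
      cexp (w * Real.log n - ∑ j ∈ range (n + 1), log (1 + w * (a + j)⁻¹)) := by
  have hn0 : (n : ℂ) ≠ 0 := by exact_mod_cast (by omega : n ≠ 0)
  have hf : ((n.factorial : ℕ) : ℂ) ≠ 0 := by exact_mod_cast n.factorial_ne_zero
  have hx : ∀ j : ℕ, 1 + w * (a + j)⁻¹ ≠ 0 := by
    intro j h
    have h1 : ‖w * (a + j)⁻¹‖ ≤ 1 / 2 := by
      rw [norm_mul]
      calc _ ≤ u / 2 * (1 / u) := by gcongr; exact norm_inv_le him hu j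
        _ = 1 / 2 := by field_simp
    have := re_one_add_pos h1
    rw [h] at this; simp at this
  have hA : ∏ j ∈ range (n + 1), (a + j) ≠ 0 := prod_ne_zero_iff.mpr fun j _ => add_ne him hu j
  have hB : ∏ j ∈ range (n + 1), (1 + w * (a + j)⁻¹) ≠ 0 := prod_ne_zero_iff.mpr fun j _ => hx j
  have hp : ∏ j ∈ range (n + 1), (a + w + j) =
      (∏ j ∈ range (n + 1), (a + j)) * ∏ j ∈ range (n + 1), (1 + w * (a + j)⁻¹) := by
    rw [← prod_mul_distrib]
    refine prod_congr rfl fun j _ => ?_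
    have := add_ne him hu j
    field_simp; ring
  have h1 : (n : ℂ) ^ a ≠ 0 := by rw [Ne, cpow_eq_zero_iff]; tauto
  rw [Complex.exp_sub, Complex.exp_sum, prod_congr rfl fun j _ => exp_log (hx j)]
  unfold GammaSeq
  rw [hp, cpow_add _ _ hn0, cpow_def_of_ne_zero hn0 w, ← natCast_log, mul_comm _ w]
  field_simp

lemma tail_log (a : ℂ) :
    Tendsto (fun n : ℕ => ‖(Real.log n : ℂ) - log (a + (n + 1 : ℕ))‖) atTop (𝓝 0) := by
  have h1 : Tendsto (fun n : ℕ => 1 + (a + 1) * ((n : ℂ))⁻¹) atTop (𝓝 1) := by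
    have := (tendsto_inv_atTop_nhds_zero_nat (𝕜 := ℂ)).const_mul (a + 1)
    simpa using this.const_add 1
  have h2 := ((continuousAt_clog (x := 1) (by simp)).tendsto.comp h1).norm
  rw [log_one, norm_zero] at h2
  refine h2.congr' ?_
  filter_upwards [eventually_ge_atTop 1, h1.eventually_ne one_ne_zero] with n hn hne
  have hn0 : (0 : ℝ) < n := by exact_mod_cast hn
  have hn1 : (n : ℂ) ≠ 0 := by exact_mod_cast (by omega : n ≠ 0)
  have e : a + ((n + 1 : ℕ) : ℂ) = ((n : ℝ) : ℂ) * (1 + (a + 1) * ((n : ℂ))⁻¹) := by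
    push_cast; field_simp; ring
  rw [e, log_ofReal_mul hn0 hne, Function.comp, ← norm_neg]
  congr 1; ring

theorem ratio (h0 : 0 < a.re) (h1 : a.re ≤ 1) (him : a.im = u) (hu : 4 ≤ u) {w : ℂ}
    (hw : ‖w‖ ^ 2 ≤ u) :
    ‖Gamma (a + w) / Gamma a * cexp (-(w * Lu u)) - 1‖ ≤
      Real.exp 6 * ((5 * ‖w‖ + 3 * ‖w‖ ^ 2) / u) := by
  have hu0 : 0 < u := by linarith
  have hw0 := norm_nonneg w
  have hw2 : ‖w‖ ≤ u / 2 := by nlinarith
  set B : ℝ := (5 * ‖w‖ + 3 * ‖w‖ ^ 2) / u with hB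
  have hB0 : 0 ≤ B := by positivity
  have hB6 : B ≤ 6 := by rw [hB, div_le_iff₀ hu0]; nlinarith
  have ha : Gamma a ≠ 0 := Gamma_ne_zero_of_re_pos h0
  have hl := ((((GammaSeq_tendsto_Gamma (a + w)).div (GammaSeq_tendsto_Gamma a) ha).mul_const
    (cexp (-(w * Lu u)))).sub_const 1).norm
  have hr : Tendsto (fun n : ℕ => Real.exp (‖w‖ * ‖(Real.log n : ℂ) - log (a + (n + 1 : ℕ))‖ + B)
      - 1) atTop (𝓝 (Real.exp B - 1)) := by
    have := ((((tail_log a).const_mul ‖w‖).add_const B).rexp).sub_const 1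
    simpa using this
  have key : ‖Gamma (a + w) / Gamma a * cexp (-(w * Lu u)) - 1‖ ≤ Real.exp B - 1 := by
    refine le_of_tendsto_of_tendsto hl hr ?_
    filter_upwards [eventually_ge_atTop 1] with n hn
    simp only [Pi.div_apply]
    rw [seq_ratio him hu hw2 n hn, ← Complex.exp_add]
    refine le_trans (by simpa using norm_exp_sub_sum_le_exp_norm_sub_sum _ 1)
      (sub_le_sub_right (Real.exp_le_exp.2 ?_) 1)
    have e : w * Real.log n - ∑ j ∈ range (n + 1), log (1 + w * (a + j)⁻¹) + -(w * Lu u) =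
        w * ((Real.log n : ℂ) - log (a + (n + 1 : ℕ))) +
        (w * ∑ j ∈ range (n + 1), (log (1 + (a + j)⁻¹) - (a + j)⁻¹) -
        ∑ j ∈ range (n + 1), (log (1 + w * (a + j)⁻¹) - w * (a + j)⁻¹) + w * (log a - Lu u)) := by
      rw [sum_sub_distrib, sum_sub_distrib, log_tele h0 him hu, ← mul_sum]; ring
    have s1 : ‖∑ j ∈ range (n + 1), (log (1 + (a + j)⁻¹) - (a + j)⁻¹)‖ ≤ 3 / u :=
      (norm_sum_le _ _).trans ((sum_le_sum fun j _ => log_err ((norm_inv_le him hu j).trans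
        (one_div_le_one_div_of_le (by norm_num) (by linarith)))).trans (sum_inv_sq h0 him hu _))
    have s2 : ‖∑ j ∈ range (n + 1), (log (1 + w * (a + j)⁻¹) - w * (a + j)⁻¹)‖ ≤
        ‖w‖ ^ 2 * (3 / u) := by
      refine (norm_sum_le _ _).trans ((sum_le_sum fun j _ => log_err ?_).trans ?_)
      · rw [norm_mul]
        calc _ ≤ u / 2 * (1 / u) := by gcongr; exact norm_inv_le him hu j
          _ = 1 / 2 := by field_simp
      · simp only [norm_mul, mul_pow]
        rw [← mul_sum]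
        exact mul_le_mul_of_nonneg_left (sum_inv_sq h0 him hu _) (by positivity)
    have s3 := log_a h0 h1 him hu
    rw [natCast_log] at e
    rw [e]
    refine (norm_add_le _ _).trans (add_le_add (by rw [norm_mul, natCast_log]) ?_)
    refine (norm_add_le _ _).trans ((add_le_add_left (norm_sub_le _ _) _).trans ?_)
    rw [norm_mul, norm_mul]
    calc _ ≤ ‖w‖ * (3 / u) + ‖w‖ ^ 2 * (3 / u) + ‖w‖ * (2 / u) := by gcongr
      _ = B := by rw [hB]; ring
  refine key.trans ?_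
  have h2 : Real.exp B - 1 ≤ B * Real.exp B := by
    have := Real.add_one_le_exp (-B)
    have h3 : Real.exp (-B) * Real.exp B = 1 := by rw [← Real.exp_add]; simp
    nlinarith [Real.exp_pos B]
  calc _ ≤ B * Real.exp B := h2
    _ ≤ B * Real.exp 6 := by gcongr
    _ = _ := mul_comm _ _

end

end Pool.Agent.MP_74e98a_nt.H93
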